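import Pool.Agent.Lib.MP_edb5be_nt.PD.Iface3
import Pool.Agent.Lib.MP_edb5be_nt.ND.H26.Final

/-!
Project PD (MP_edb5be_nt), module ALLS: an invariant set which misses `x` has density at most
`1 - c / |x|`.
-/

set_option autoImplicit false

namespace Pool.Agent.Lib.MP_edb5be_nt.PD.H63

open Finset Pool.Agent.Lib.MP_edb5be_nt.EX Pool.Agent.Lib.MP_0a5adf_nt.TP

theorem allS (h1 : ND.ZDenStatement) (h2 : GodStatement) : AllSStatement := by
  obtain ⟨C, hC, hZ⟩ := h1
  obtain ⟨c, hc, H⟩ := h2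
  refine ⟨c, hc, fun d S D x hS hD hx hxS => ?_⟩
  obtain ⟨D', -, -, hD', -⟩ := hZ d 1 (GO x) le_rfl (fun n _ => ND.H26.go_inv x n)
  have h3 := H d x D' hx hD'
  have hfwd : ∀ (j : ℕ) (n : ℤ), n ∈ S ↔ Tc^[j] n ∈ S := by
    intro j
    induction j with
    | zero => intro n; rfl
    | succ j ih =>
      intro n
      rw [hS n, ih (Tc n), Function.iterate_succ_apply]
  have hdis : Disjoint S (GO x) := by
    rw [Set.disjoint_left]
    rintro n hn ⟨j, k, hjk⟩
    apply hxS
    rw [hfwd k x, ← hjk, ← hfwd j n]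
    exact hn
  have h4 : D + D' ≤ 1 := by
    have ht := (hD.add hD')
    refine le_of_tendsto_of_tendsto ht (ND.H26.dens_univ d) ?_
    filter_upwards [Filter.eventually_gt_atTop (0 : ℝ)] with X hX
    rw [← add_div, ← ND.H38.cnt_union_eq d hdis X]
    exact div_le_div_of_nonneg_right (ND.H38.cnt_mono d (Set.subset_univ _) X) hX.le
  linarith

end Pool.Agent.Lib.MP_edb5be_nt.PD.H63
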