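import Pool.Agent.Lib.MP_edb5be_nt.PD.Iface3
import Pool.Agent.Lib.MP_edb5be_nt.ND.H38.Sigma

/-!
Project PD (MP_edb5be_nt), module GOD: the grand orbits have positive density.
-/

set_option autoImplicit false

namespace Pool.Agent.Lib.MP_edb5be_nt.PD.H63

open Finset Pool.Agent.Lib.MP_edb5be_nt.EX Pool.Agent.Lib.MP_0a5adf_nt.TP

/-- Every nonzero integer leads to an integer prime to `3` of the same sign. -/
theorem lead (n : ℕ) : ∀ x : ℤ, x ≠ 0 → x.natAbs ≤ n → ∃ (i : ℕ) (y : ℤ), Tc^[i] x = y ∧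
    ¬ (3 : ℤ) ∣ y ∧ |y| ≤ 2 * |x| ∧ (0 < x → 0 < y) ∧ (x < 0 → y < 0) := by
  induction n with
  | zero =>
    intro x hx h
    exact absurd (Int.natAbs_eq_zero.1 (Nat.le_zero.1 h)) hx
  | succ n ih =>
    intro x hx h
    by_cases he : x % 2 = 0
    · have h1 : Tc x = x / 2 := by
        unfold Tc
        rw [if_pos he]
      obtain ⟨k, hk⟩ : ∃ k : ℤ, x = 2 * k := ⟨x / 2, by omega⟩
      subst hk
      have h2 : Tc (2 * k) = k := by
        rw [h1]
        omega
      have hk0 : k ≠ 0 := by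
        rintro rfl
        exact hx rfl
      obtain ⟨i, y, hy1, hy2, hy3, hy4, hy5⟩ := ih k hk0 (by omega)
      refine ⟨i + 1, y, ?_, hy2, ?_, fun h3 => hy4 (by linarith), fun h3 => hy5 (by linarith)⟩
      · rw [Function.iterate_succ_apply, h2, hy1]
      · have h4 : |2 * k| = 2 * |k| := by
          rw [abs_mul]
          norm_num
        have h5 := abs_nonneg k
        rw [h4]
        linarith
    · have h1 : Tc x = (3 * x + 1) / 2 := by
        unfold Tc
        rw [if_neg he]
      obtain ⟨k, hk⟩ : ∃ k : ℤ, x = 2 * k + 1 := ⟨x / 2, by omega⟩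
      subst hk
      have h2 : Tc (2 * k + 1) = 3 * k + 2 := by
        rw [h1]
        omega
      refine ⟨1, 3 * k + 2, h2, ?_, ?_, fun h3 => by omega, fun h3 => by omega⟩
      · omega
      · rcases le_or_gt 0 k with h3 | h3
        · rw [abs_of_nonneg (by omega), abs_of_nonneg (by omega)]
          omega
        · rw [abs_of_neg (by omega), abs_of_neg (by omega)]
          omega

theorem god (h1 : PrdStatement) : GodStatement := by
  obtain ⟨c, hc, H⟩ := h1
  refine ⟨c / 2, by positivity, fun d x D hx hD => ?_⟩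
  have hx0 : x ≠ 0 := by
    rintro rfl
    simp at hx
  obtain ⟨i, y, hy1, hy2, hy3, hy4, hy5⟩ := lead x.natAbs x hx0 le_rfl
  have hsg : 0 < sg d * y := by
    cases d
    · simp only [sg] at hx ⊢
      have : x < 0 := by
        norm_num at hx
        exact hx
      have := hy5 this
      norm_num
      exact this
    · simp only [sg] at hx ⊢
      have : 0 < x := by
        norm_num at hx
        exact hx
      have := hy4 this
      norm_num
      exact this
  obtain ⟨D', hD', -, -, hlow⟩ := H d y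
  have h2 := hlow hy2 hsg
  have hsub : Pr y ⊆ GO x := by
    rintro n ⟨k, hk⟩
    exact ⟨k, i, by rw [hk, hy1]⟩
  have h3 : D' ≤ D := by
    refine le_of_tendsto_of_tendsto hD' hD ?_
    filter_upwards [Filter.eventually_gt_atTop (0 : ℝ)] with X hX
    exact div_le_div_of_nonneg_right (ND.H38.cnt_mono d hsub X) hX.le
  have hxp : 0 < |(x : ℝ)| := abs_pos.2 (by exact_mod_cast hx0)
  have hy0 : y ≠ 0 := by
    rintro rfl
    exact hy2 (dvd_zero 3)
  have hyp : 0 < |(y : ℝ)| := abs_pos.2 (by exact_mod_cast hy0)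
  have h4 : |(y : ℝ)| ≤ 2 * |(x : ℝ)| := by exact_mod_cast hy3
  calc c / 2 / |(x : ℝ)| = c / (2 * |(x : ℝ)|) := by rw [div_div]
    _ ≤ c / |(y : ℝ)| := div_le_div_of_nonneg_left hc.le hyp h4
    _ ≤ D' := h2
    _ ≤ D := h3

end Pool.Agent.Lib.MP_edb5be_nt.PD.H63
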